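import Pool.Agent.K9h59.MI.A
import Pool.Agent.H442R2.LP.Core

/-!
Primes in progressions at heights below the square of the modulus, for all the residues of a set outside few pairs.
-/

set_option autoImplicit false

namespace Pool.Agent.K9h59.LP

open Finset
open Pool.Agent.H442R2.KF
open Pool.Agent.W109.C

/-- the number of the primes `p ≤ D ^ lam`, `p ≡ a (mod d)`, is `π(D ^ lam) / φ(d)` up to
`D ^ lam / (d log ^ U D)` -/
def Reg (lam : ℝ) (U D d a : ℕ) : Prop :=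
  |Er ⌊(D : ℝ) ^ lam⌋₊ d a| ≤ (D : ℝ) ^ lam / (d * Real.log D ^ U)

open Classical in
/-- the residues of `A` prime to `d` which are not regular -/
noncomputable def ex (lam : ℝ) (U D : ℕ) (A : Finset ℕ) (d : ℕ) : Finset ℕ :=
  A.filter (fun a => Nat.Coprime a d ∧ ¬ Reg lam U D d a)

lemma mem_ex {lam : ℝ} {U D : ℕ} {A : Finset ℕ} {d a : ℕ} :
    a ∈ ex lam U D A d ↔ a ∈ A ∧ Nat.Coprime a d ∧ ¬ Reg lam U D d a := by
  classical
  unfold ex
  exact mem_filter

lemma D_le {lam : ℝ} (hlam : 1 ≤ lam) {D : ℕ} (hD : 1 ≤ D) : D ≤ ⌊(D : ℝ) ^ lam⌋₊ := by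
  have hD1 : (1 : ℝ) ≤ D := by exact_mod_cast hD
  refine Nat.le_floor ?_
  calc (D : ℝ) = (D : ℝ) ^ (1 : ℝ) := (Real.rpow_one _).symm
    _ ≤ (D : ℝ) ^ lam := Real.rpow_le_rpow_of_exponent_le hD1 hlam

lemma logN {lam : ℝ} (hlam : 1 ≤ lam) {D : ℕ} (hD : 1 ≤ D) :
    Real.log D ≤ Real.log ⌊(D : ℝ) ^ lam⌋₊ ∧ Real.log ⌊(D : ℝ) ^ lam⌋₊ ≤ lam * Real.log D := by
  have hD1 : (1 : ℝ) ≤ D := by exact_mod_cast hD
  have h1 := D_le hlam hD
  have h2 : (D : ℝ) ≤ (⌊(D : ℝ) ^ lam⌋₊ : ℝ) := by exact_mod_cast h1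
  constructor
  · exact Real.log_le_log (by linarith) h2
  · calc Real.log ⌊(D : ℝ) ^ lam⌋₊ ≤ Real.log ((D : ℝ) ^ lam) :=
        Real.log_le_log (by linarith) (Nat.floor_le (by positivity))
      _ = lam * Real.log D := Real.log_rpow (by linarith) _

lemma ev_log (c : ℝ) : ∃ D₀ : ℕ, ∀ D : ℕ, D₀ ≤ D → c ≤ Real.log D := by
  have h := (Real.tendsto_log_atTop.comp tendsto_natCast_atTop_atTop).eventually
    (Filter.eventually_ge_atTop c)
  exact Filter.eventually_atTop.1 h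

/-- the moduli of a class -/
theorem core (lam θ : ℝ) (hlam : 1 ≤ lam) (hθ : θ < 3 / 4) (P : ℕ → ℕ → Prop) (hPc : HCorr θ P)
    (Q : ℕ → ℕ → Prop)
    (hQ : ∃ D₁ : ℕ, ∀ D : ℕ, D₁ ≤ D → (∀ d ∈ Ioc D (2 * D), d ∈ Icc 1 ⌊((⌊(D : ℝ) ^ lam⌋₊ : ℕ) : ℝ) ^ θ⌋₊) ∧
      ∀ d ∈ Ioc D (2 * D), Q D d → P ⌊(D : ℝ) ^ lam⌋₊ d) :
    ∃ η : ℝ, 0 < η ∧ ∀ U : ℕ, ∃ B D₀ : ℕ, ∀ D : ℕ, D₀ ≤ D → ∃ Z : Finset ℕ, Z ⊆ Ioc D (2 * D) ∧
      (Z.card : ℝ) ≤ D / Real.log D ^ U ∧
      ∀ A : Finset ℕ, A ⊆ Icc 1 ⌊(D : ℝ) ^ lam⌋₊ → (A.card : ℝ) ≤ (D : ℝ) ^ η →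
        ∀ S : Finset ℕ, (∀ d ∈ S, d ∈ Ioc D (2 * D) ∧ d ∉ Z ∧ Q D d) →
        ∑ d ∈ S, ((ex lam U D A d).card : ℝ) ≤ D * Real.log D ^ B := by
  classical
  obtain ⟨D₁, hQ⟩ := hQ
  obtain ⟨η, hη, hmain⟩ := main_gen θ hθ P hPc
  refine ⟨η, hη, fun U => ?_⟩
  obtain ⟨B, C, hC, h⟩ := hmain (U + 2)
  obtain ⟨D₂, hD₂⟩ := ev_log (2 * C + 2 * C * lam ^ B + 1)
  refine ⟨B + 1, D₁ + D₂ + 3, fun D hD => ?_⟩
  have hD1 : 1 ≤ D := by omega
  have hD0 : (0 : ℝ) < D := by exact_mod_cast hD1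
  obtain ⟨hr, hQ'⟩ := hQ D (by omega)
  have hlog := hD₂ D (by omega)
  obtain ⟨l1, l2⟩ := logN hlam hD1
  obtain ⟨N, hN⟩ : ∃ N, N = ⌊(D : ℝ) ^ lam⌋₊ := ⟨_, rfl⟩
  have hDN : D ≤ N := by rw [hN]; exact D_le hlam hD1
  rw [← hN] at hr hQ' l1 l2
  have hlam0 : (0 : ℝ) ≤ lam ^ B := by positivity
  have hL1 : 1 ≤ Real.log D := by nlinarith
  have hL0 : 0 < Real.log D := by linarith
  have hNlog : 1 ≤ Real.log N := by linarith
  obtain ⟨Z₀, hZ₀, hA₀⟩ := h N (by omega)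
  refine ⟨(Ioc D (2 * D)).filter (fun d => d ∈ Z₀), filter_subset _ _, ?_, ?_⟩
  · -- the number of exceptional moduli
    have e1 : (((Ioc D (2 * D)).filter (fun d => d ∈ Z₀)).card : ℝ) * (1 / (2 * D)) ≤
        C / Real.log N ^ (U + 2) := by
      refine le_trans ?_ hZ₀
      rw [← nsmul_eq_mul, ← sum_const]
      refine le_trans (sum_le_sum (f := fun _ => (1 : ℝ) / (2 * D)) (g := fun q => 1 / (Nat.totient q : ℝ)) ?_) ?_
      · intro d hd
        rw [mem_filter, mem_Ioc] at hd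
        have h1 : 0 < Nat.totient d := Nat.totient_pos.2 (by omega)
        have h2 : (Nat.totient d : ℝ) ≤ 2 * D := by
          exact_mod_cast (Nat.totient_le d).trans hd.1.2
        have h3 : (0 : ℝ) < Nat.totient d := by exact_mod_cast h1
        exact one_div_le_one_div_of_le h3 h2
      · refine sum_le_sum_of_subset_of_nonneg ?_ ?_
        · intro d hd
          exact (mem_filter.1 hd).2
        · intro d _ _
          positivity
    have e2 : C / Real.log N ^ (U + 2) ≤ 1 / (2 * Real.log D ^ U) := by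
      have e3 : Real.log D ^ (U + 2) ≤ Real.log N ^ (U + 2) := pow_le_pow_left₀ hL0.le l1 _
      rw [div_le_div_iff₀ (by positivity) (by positivity)]
      have e4 : 2 * C ≤ Real.log D ^ 2 := by nlinarith
      calc C * (2 * Real.log D ^ U) = (2 * C) * Real.log D ^ U := by ring
        _ ≤ Real.log D ^ 2 * Real.log D ^ U := mul_le_mul_of_nonneg_right e4 (by positivity)
        _ = Real.log D ^ (U + 2) := by ring
        _ ≤ 1 * Real.log N ^ (U + 2) := by rw [one_mul]; exact e3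
    have e5 := e1.trans e2
    rw [mul_one_div, div_le_div_iff₀ (by positivity) (by positivity)] at e5
    rw [le_div_iff₀ (by positivity)]
    linarith
  · intro A hA hAc S hS
    rw [← hN] at hA
    have hAc' : (A.card : ℝ) ≤ (N : ℝ) ^ η := by
      refine hAc.trans (Real.rpow_le_rpow hD0.le ?_ hη.le)
      exact_mod_cast hDN
    obtain ⟨X, -, hX1, hX2, -⟩ := hA₀ A hA hAc'
    -- exceptional pairs are in `X`
    have k1 : ∀ d ∈ S, (ex lam U D A d) ⊆ X d := by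
      intro d hd a ha
      rw [mem_ex] at ha
      obtain ⟨h1, h2, h3⟩ := ha
      obtain ⟨g1, g2, g3⟩ := hS d hd
      by_contra h4
      refine h3 ?_
      have g4 : d ∈ mo P N θ := mem_mo.2 ⟨hr d g1, hQ' d g1 g3⟩
      have g5 : d ∉ Z₀ := fun g => g2 (mem_filter.2 ⟨g1, g⟩)
      have g6 := hX2 d g4 g5 a h1 h4 h2
      unfold Reg
      rw [← hN]
      refine g6.trans ?_
      have hd0 : (0 : ℝ) < d := by
        have := mem_Ioc.1 g1
        exact_mod_cast (by omega : 0 < d)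
      have g7 : (N : ℝ) ≤ (D : ℝ) ^ lam := by
        rw [hN]
        exact Nat.floor_le (by positivity)
      rw [← mul_div_assoc, div_le_div_iff₀ (by positivity) (by positivity)]
      have e3 : Real.log D ^ (U + 2) ≤ Real.log N ^ (U + 2) := pow_le_pow_left₀ hL0.le l1 _
      have e4 : C ≤ Real.log D ^ 2 := by nlinarith
      calc C * N * (d * Real.log D ^ U) ≤ Real.log D ^ 2 * (D : ℝ) ^ lam * (d * Real.log D ^ U) := by
            refine mul_le_mul_of_nonneg_right ?_ (by positivity)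
            exact mul_le_mul e4 g7 (by positivity) (by positivity)
        _ = (D : ℝ) ^ lam * (d * Real.log D ^ (U + 2)) := by ring
        _ ≤ (D : ℝ) ^ lam * (d * Real.log N ^ (U + 2)) := by gcongr
    -- the sum
    have k2 : ∑ d ∈ S, ((ex lam U D A d).card : ℝ) ≤ ∑ d ∈ Ioc D (2 * D), ((X d).card : ℝ) := by
      refine (sum_le_sum fun d hd => ?_).trans (sum_le_sum_of_subset_of_nonneg (s := S) ?_ ?_)
      · exact_mod_cast card_le_card (k1 d hd)
      · intro d hd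
        exact (hS d hd).1
      · intro d _ _
        positivity
    have k3 : ∑ d ∈ Ioc D (2 * D), ((X d).card : ℝ) ≤ (2 * D) * (C * Real.log N ^ B) := by
      refine le_trans ?_ (mul_le_mul_of_nonneg_left hX1 (by positivity))
      rw [mul_sum]
      refine (sum_le_sum fun d hd => ?_).trans (sum_le_sum_of_subset_of_nonneg (s := Ioc D (2 * D)) ?_ ?_)
      · rw [mem_Ioc] at hd
        have h1 : (0 : ℝ) < Nat.totient d := by
          exact_mod_cast Nat.totient_pos.2 (by omega)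
        have h2 : (Nat.totient d : ℝ) ≤ 2 * D := by
          exact_mod_cast (Nat.totient_le d).trans hd.2
        rw [← mul_div_assoc, le_div_iff₀ h1, mul_comm]
        exact mul_le_mul_of_nonneg_right h2 (by positivity)
      · intro d hd
        exact hr d hd
      · intro d _ _
        positivity
    refine (k2.trans k3).trans ?_
    have k4 : Real.log N ^ B ≤ (lam * Real.log D) ^ B := pow_le_pow_left₀ (by linarith) l2 _
    have k5 : 2 * C * lam ^ B ≤ Real.log D := by linarith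
    calc 2 * (D : ℝ) * (C * Real.log N ^ B) ≤ 2 * D * (C * (lam * Real.log D) ^ B) := by gcongr
      _ = D * ((2 * C * lam ^ B) * Real.log D ^ B) := by rw [mul_pow]; ring
      _ ≤ D * (Real.log D * Real.log D ^ B) := by gcongr
      _ = D * Real.log D ^ (B + 1) := by rw [pow_succ]; ring

/-- regular pairs have primes -/
theorem reg_prime (lam : ℝ) (hlam : 1 ≤ lam) (U : ℕ) (hU : 2 ≤ U) : ∃ D₀ : ℕ, ∀ D : ℕ, D₀ ≤ D →
    ∀ d ∈ Ioc D (2 * D), ∀ a : ℕ, Reg lam U D d a →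
      ∃ p : ℕ, p.Prime ∧ p ≡ a [MOD d] ∧ (p : ℝ) < (d : ℝ) ^ lam := by
  obtain ⟨D₂, hD₂⟩ := ev_log (10 * lam + 2)
  refine ⟨D₂ + 3, fun D hD d hd a hreg => ?_⟩
  rw [mem_Ioc] at hd
  by_contra hcon
  push Not at hcon
  have hD1 : 1 ≤ D := by omega
  have hD0 : (0 : ℝ) < D := by exact_mod_cast hD1
  have hlog := hD₂ D (by omega)
  obtain ⟨l1, l2⟩ := logN hlam hD1
  unfold Reg at hreg
  obtain ⟨N, hN⟩ : ∃ N, N = ⌊(D : ℝ) ^ lam⌋₊ := ⟨_, rfl⟩
  have hDN : D ≤ N := by rw [hN]; exact D_le hlam hD1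
  rw [← hN] at hreg l1 l2
  have hNle : (N : ℝ) ≤ (D : ℝ) ^ lam := by rw [hN]; exact Nat.floor_le (by positivity)
  have hNlt : (D : ℝ) ^ lam < N + 1 := by rw [hN]; exact Nat.lt_floor_add_one _
  have hN3 : (3 : ℝ) ≤ N := by exact_mod_cast (by omega : 3 ≤ N)
  have hL0 : 0 < Real.log D := by linarith
  have hLN : 0 < Real.log N := by linarith
  have h0 : piAP N d a = 0 := by
    unfold piAP
    rw [card_eq_zero, filter_eq_empty_iff]
    intro p hp hpp
    have h1 := hcon p hpp.1 hpp.2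
    have h2 : (p : ℝ) ≤ N := by exact_mod_cast (mem_Icc.1 hp).2
    have h3 : (D : ℝ) ^ lam < (d : ℝ) ^ lam :=
      Real.rpow_lt_rpow hD0.le (by exact_mod_cast hd.1) (by linarith)
    linarith
  have h1 := Pool.Agent.H442R2.LP.piN_ge N (by omega)
  have hd0 : (0 : ℝ) < d := by exact_mod_cast (by omega : 0 < d)
  have ht : (0 : ℝ) < Nat.totient d := by exact_mod_cast Nat.totient_pos.2 (by omega)
  have htd : (Nat.totient d : ℝ) ≤ d := by exact_mod_cast Nat.totient_le d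
  unfold Er at hreg
  rw [h0, Nat.cast_zero, zero_sub, abs_neg, abs_of_nonneg (by positivity), div_le_div_iff₀ ht (by positivity)] at hreg
  -- `piN N * (d * log ^ U D) ≤ D ^ lam * φ(d)`
  have h2 : (piN N : ℝ) * Real.log D ^ U ≤ (D : ℝ) ^ lam := by
    have h3 : (D : ℝ) ^ lam * (Nat.totient d : ℝ) ≤ (D : ℝ) ^ lam * d :=
      mul_le_mul_of_nonneg_left htd (by positivity)
    have h4 : (piN N : ℝ) * Real.log D ^ U * d ≤ (D : ℝ) ^ lam * d := by
      calc (piN N : ℝ) * Real.log D ^ U * d = piN N * (d * Real.log D ^ U) := by ring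
        _ ≤ _ := hreg.trans h3
    exact le_of_mul_le_mul_right h4 hd0
  have h5 : Real.log D ^ 2 ≤ Real.log D ^ U := pow_le_pow_right₀ (by linarith) hU
  have h6 : (piN N : ℝ) * Real.log D ^ 2 ≤ N + 1 :=
    (mul_le_mul_of_nonneg_left h5 (by positivity)).trans (h2.trans hNlt.le)
  have h7 : (N : ℝ) ≤ 5 * piN N * (lam * Real.log D) :=
    h1.trans (mul_le_mul_of_nonneg_left l2 (by positivity))
  have hp0 : (0 : ℝ) < piN N := by
    by_contra hneg
    have : (piN N : ℝ) = 0 := le_antisymm (not_lt.1 hneg) (by positivity)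
    rw [this] at h1
    linarith
  have h8 : (piN N : ℝ) * Real.log D * Real.log D ≤ (piN N : ℝ) * Real.log D * (10 * lam) := by
    have h9 : (N : ℝ) + 1 ≤ 2 * N := by linarith
    nlinarith
  have h9 : Real.log D ≤ 10 * lam := le_of_mul_le_mul_left h8 (by positivity)
  linarith

/-- residues which are exceptional for many moduli -/
theorem few_res (lam η : ℝ) (hη : 0 < η) (U B : ℕ) : ∃ D₀ : ℕ, ∀ D : ℕ, D₀ ≤ D → ∀ (S : Finset ℕ)
    (Z : Finset ℕ), (Z.card : ℝ) ≤ D / Real.log D ^ U →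
    (∀ A : Finset ℕ, A ⊆ Icc 1 ⌊(D : ℝ) ^ lam⌋₊ → (A.card : ℝ) ≤ (D : ℝ) ^ η →
        ∑ d ∈ S \ Z, ((ex lam U D A d).card : ℝ) ≤ D * Real.log D ^ B) →
    ∀ E : Finset ℕ, E ⊆ Icc 1 ⌊(D : ℝ) ^ lam⌋₊ →
      (∀ a ∈ E, ∃ S' : Finset ℕ, S' ⊆ S ∧ 2 * D / Real.log D ^ U < (S'.card : ℝ) ∧ ∀ d ∈ S', Nat.Coprime a d ∧ ¬ Reg lam U D d a) →
      (E.card : ℝ) ≤ Real.log D ^ (B + U) := by
  classical
  obtain ⟨D₂, hD₂⟩ := ev_log 1
  have hev : ∃ D₃ : ℕ, ∀ D : ℕ, D₃ ≤ D → Real.log D ^ (B + U) + 1 < (D : ℝ) ^ η := by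
    have h1 := isLittleO_log_rpow_atTop (show (0 : ℝ) < η / (2 * (B + U + 1 : ℕ)) by positivity)
    have h2 := h1.bound (c := 1) one_pos
    have h3 := (tendsto_natCast_atTop_atTop (R := ℝ)).eventually h2
    have h4 := ((tendsto_rpow_atTop (show (0 : ℝ) < η / 2 by positivity)).comp
      (tendsto_natCast_atTop_atTop (R := ℝ))).eventually (Filter.eventually_gt_atTop 2)
    obtain ⟨D₃, hD₃⟩ := Filter.eventually_atTop.1 (h3.and (h4.and (Filter.eventually_ge_atTop (max D₂ 3))))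
    refine ⟨D₃, fun D hD => ?_⟩
    obtain ⟨g1, g2, g3⟩ := hD₃ D hD
    have hDpos : (0 : ℝ) < D := by exact_mod_cast (by omega : 0 < D)
    have gl : 1 ≤ Real.log D := hD₂ D (by omega)
    simp only [Function.comp] at g2
    rw [one_mul, Real.norm_eq_abs, Real.norm_eq_abs, abs_of_nonneg (by linarith), abs_of_nonneg (by positivity)] at g1
    have g4 : Real.log D ^ (B + U) ≤ (D : ℝ) ^ (η / 2) := by
      calc Real.log D ^ (B + U) ≤ Real.log D ^ (B + U + 1) := pow_le_pow_right₀ gl (by omega)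
        _ ≤ ((D : ℝ) ^ (η / (2 * (B + U + 1 : ℕ)))) ^ (B + U + 1) := pow_le_pow_left₀ (by linarith) g1 _
        _ = (D : ℝ) ^ (η / 2) := by
          rw [← Real.rpow_natCast, ← Real.rpow_mul hDpos.le]
          congr 1
          have : ((B + U + 1 : ℕ) : ℝ) ≠ 0 := by positivity
          field_simp
    have g5 : (D : ℝ) ^ η = (D : ℝ) ^ (η / 2) * (D : ℝ) ^ (η / 2) := by
      rw [← Real.rpow_add hDpos]; congr 1; ring
    nlinarith
  obtain ⟨D₃, hD₃⟩ := hev
  refine ⟨D₂ + D₃ + 3, fun D hD S Z hZ hA E hE hbad => ?_⟩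
  have hD0 : (0 : ℝ) < D := by exact_mod_cast (by omega : 0 < D)
  have hL : 1 ≤ Real.log D := hD₂ D (by omega)
  have hL0 : 0 < Real.log D := by linarith
  have hbig := hD₃ D (by omega)
  -- for all small subsets
  have key : ∀ A : Finset ℕ, A ⊆ E → (A.card : ℝ) ≤ (D : ℝ) ^ η → (A.card : ℝ) ≤ Real.log D ^ (B + U) := by
    intro A hAE hAc
    have h1 := hA A (hAE.trans hE) hAc
    have h2 : (A.card : ℝ) * (D / Real.log D ^ U) ≤ ∑ d ∈ S \ Z, ((ex lam U D A d).card : ℝ) := by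
      have h3 : ∑ d ∈ S \ Z, ((ex lam U D A d).card : ℝ) =
          ∑ a ∈ A, (((S \ Z).filter (fun d => Nat.Coprime a d ∧ ¬ Reg lam U D d a)).card : ℝ) := by
        have h4 : ∀ d, ((ex lam U D A d).card : ℝ) = ∑ a ∈ A, if Nat.Coprime a d ∧ ¬ Reg lam U D d a then (1 : ℝ) else 0 := by
          intro d
          unfold ex
          rw [card_filter]
          push_cast
          rfl
        simp only [h4]
        rw [sum_comm]
        refine sum_congr rfl fun a _ => ?_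
        rw [card_filter]
        push_cast
        rfl
      rw [h3, ← nsmul_eq_mul, ← sum_const]
      refine sum_le_sum fun a ha => ?_
      obtain ⟨S', hS', hc, hd⟩ := hbad a (hAE ha)
      have h5 : S' ⊆ ((S \ Z).filter (fun d => Nat.Coprime a d ∧ ¬ Reg lam U D d a)) ∪ Z := by
        intro d hd'
        rw [mem_union, mem_filter, mem_sdiff]
        by_cases hz : d ∈ Z
        · exact Or.inr hz
        · exact Or.inl ⟨⟨hS' hd', hz⟩, hd d hd'⟩
      have h6 : (S'.card : ℝ) ≤ (((S \ Z).filter (fun d => Nat.Coprime a d ∧ ¬ Reg lam U D d a)).card : ℝ) + Z.card := by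
        exact_mod_cast (card_le_card h5).trans (card_union_le _ _)
      have h7 : 2 * D / Real.log D ^ U = D / Real.log D ^ U + D / Real.log D ^ U := by ring
      linarith
    have h3 := h2.trans h1
    have h4 : (A.card : ℝ) * D ≤ Real.log D ^ (B + U) * D := by
      have h5 : (A.card : ℝ) * (D / Real.log D ^ U) * Real.log D ^ U ≤ D * Real.log D ^ B * Real.log D ^ U :=
        mul_le_mul_of_nonneg_right h3 (by positivity)
      have h6 : (A.card : ℝ) * (D / Real.log D ^ U) * Real.log D ^ U = A.card * D := by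
        field_simp
      rw [h6] at h5
      calc (A.card : ℝ) * D ≤ D * Real.log D ^ B * Real.log D ^ U := h5
        _ = Real.log D ^ (B + U) * D := by rw [pow_add]; ring
    exact le_of_mul_le_mul_right h4 hD0
  by_cases hc : (E.card : ℝ) ≤ (D : ℝ) ^ η
  · exact key E subset_rfl hc
  · exfalso
    push Not at hc
    have h1 : ⌊(D : ℝ) ^ η⌋₊ ≤ E.card := by
      have h2 : ((⌊(D : ℝ) ^ η⌋₊ : ℕ) : ℝ) ≤ E.card := (Nat.floor_le (by positivity)).trans hc.le
      exact_mod_cast h2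
    obtain ⟨A, hAE, hAc⟩ := exists_subset_card_eq h1
    have h2 := key A hAE (by rw [hAc]; exact Nat.floor_le (by positivity))
    rw [hAc] at h2
    have h3 : (D : ℝ) ^ η < ⌊(D : ℝ) ^ η⌋₊ + 1 := Nat.lt_floor_add_one _
    linarith

end Pool.Agent.K9h59.LP
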