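import Pool.Agent.K9h59.LP.A

/-!
The two families of moduli: all moduli at the exponents above `27/14`, squarefree smooth moduli
above `9/5`.
-/

set_option autoImplicit false

namespace Pool.Agent.K9h59.LP

open Finset
open Pool.Agent.H442R2.KF
open Pool.Agent.W109.C
open Pool.Agent.K9h59.MI

lemma pow_two {lam κ : ℝ} (h1 : 1 < lam * κ) (h0 : 0 < κ) (hk : κ ≤ 1) (hlam : 1 ≤ lam) :
    ∃ D₁ : ℕ, ∀ D : ℕ, D₁ ≤ D → (2 * D : ℝ) ≤ ((⌊(D : ℝ) ^ lam⌋₊ : ℕ) : ℝ) ^ κ := by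
  have h4 := ((tendsto_rpow_atTop (show (0 : ℝ) < lam * κ - 1 by linarith)).comp
      (tendsto_natCast_atTop_atTop (R := ℝ))).eventually (Filter.eventually_ge_atTop 4)
  obtain ⟨D₁, hD₁⟩ := Filter.eventually_atTop.1 h4
  refine ⟨D₁ + 2, fun D hD => ?_⟩
  have g := hD₁ D (by omega)
  simp only [Function.comp] at g
  have hD2 : (2 : ℝ) ≤ D := by exact_mod_cast (by omega : 2 ≤ D)
  have hD0 : (0 : ℝ) < D := by linarith
  have hp : (2 : ℝ) ≤ (D : ℝ) ^ lam := by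
    calc (2 : ℝ) ≤ D := hD2
      _ = (D : ℝ) ^ (1 : ℝ) := (Real.rpow_one _).symm
      _ ≤ (D : ℝ) ^ lam := Real.rpow_le_rpow_of_exponent_le (by linarith) hlam
  have hN : (D : ℝ) ^ lam / 2 ≤ ((⌊(D : ℝ) ^ lam⌋₊ : ℕ) : ℝ) := by
    have := Nat.lt_floor_add_one ((D : ℝ) ^ lam)
    linarith
  have e1 : ((D : ℝ) ^ lam / 2) ^ κ ≤ ((⌊(D : ℝ) ^ lam⌋₊ : ℕ) : ℝ) ^ κ :=
    Real.rpow_le_rpow (by positivity) hN h0.le
  refine le_trans ?_ e1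
  rw [Real.div_rpow (by positivity) (by norm_num), ← Real.rpow_mul hD0.le]
  have e2 : (2 : ℝ) ^ κ ≤ 2 := by
    calc (2 : ℝ) ^ κ ≤ (2 : ℝ) ^ (1 : ℝ) := Real.rpow_le_rpow_of_exponent_le (by norm_num) hk
      _ = 2 := Real.rpow_one _
  rw [le_div_iff₀ (by positivity)]
  have e3 : (D : ℝ) ^ (lam * κ) = (D : ℝ) ^ (lam * κ - 1) * D := by
    have e4 : (D : ℝ) ^ (lam * κ - 1) * D = (D : ℝ) ^ (lam * κ - 1) * (D : ℝ) ^ (1 : ℝ) := by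
      rw [Real.rpow_one]
    rw [e4, ← Real.rpow_add hD0]
    congr 1
    ring
  rw [e3]
  calc 2 * (D : ℝ) * 2 ^ κ ≤ 2 * (D : ℝ) * 2 := by gcongr
    _ = 4 * D := by ring
    _ ≤ (D : ℝ) ^ (lam * κ - 1) * D := by gcongr

lemma mem_Icc_of {D d : ℕ} {t : ℝ} (h : (2 * D : ℝ) ≤ t) (hd : d ∈ Ioc D (2 * D)) :
    (d : ℝ) ≤ t ∧ d ∈ Icc 1 ⌊t⌋₊ := by
  rw [mem_Ioc] at hd
  have h1 : (d : ℝ) ≤ 2 * D := by exact_mod_cast hd.2
  exact ⟨h1.trans h, mem_Icc.2 ⟨by omega, Nat.le_floor (h1.trans h)⟩⟩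

/-- all moduli -/
theorem all_mod (lam : ℝ) (hlam : 27 / 14 < lam) :
    ∃ η : ℝ, 0 < η ∧ ∀ U : ℕ, ∃ B D₀ : ℕ, ∀ D : ℕ, D₀ ≤ D → ∃ Z : Finset ℕ, Z ⊆ Ioc D (2 * D) ∧
      (Z.card : ℝ) ≤ D / Real.log D ^ U ∧
      ∀ A : Finset ℕ, A ⊆ Icc 1 ⌊(D : ℝ) ^ lam⌋₊ → (A.card : ℝ) ≤ (D : ℝ) ^ η →
        ∑ d ∈ Ioc D (2 * D) \ Z, ((ex lam U D A d).card : ℝ) ≤ D * Real.log D ^ B := by
  classical
  have hl0 : 0 < lam := by linarith
  have hinv : 1 / lam < 14 / 27 := by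
    rw [div_lt_div_iff₀ hl0 (by norm_num)]
    linarith
  have hinv0 : 0 < 1 / lam := by positivity
  obtain ⟨α, hα⟩ : ∃ α : ℝ, α = (1 / lam + 14 / 27) / 2 := ⟨_, rfl⟩
  have ha1 : α < 14 / 27 := by rw [hα]; linarith
  have ha0 : 0 < α := by rw [hα]; linarith
  have ha2 : 1 < lam * α := by
    have h1 : 1 / lam < α := by rw [hα]; linarith
    have h2 : lam * (1 / lam) < lam * α := mul_lt_mul_of_pos_left h1 hl0
    rwa [mul_one_div, div_self hl0.ne'] at h2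
  obtain ⟨D₁, hD₁⟩ := pow_two ha2 ha0 (by linarith) (by linarith)
  have hθ1 : (1 : ℝ) / 2 ≤ max α (1 / 2) := le_max_right _ _
  have hθ2 : max α (1 / 2) < 5 / 9 := max_lt (by linarith) (by norm_num)
  have key := core lam (max α (1 / 2)) (by linarith) (by linarith) (PG α (max α (1 / 2)) 1)
    (hcorr_PG α _ 1 ha1 hθ1 hθ2 one_pos) (fun _ _ => True) ⟨D₁ + 2, fun D hD => by
    have g := hD₁ D (by omega)
    have hN1 : (1 : ℝ) ≤ ((⌊(D : ℝ) ^ lam⌋₊ : ℕ) : ℝ) := by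
      have := D_le (lam := lam) (by linarith) (show 1 ≤ D by omega)
      exact_mod_cast (by omega : 1 ≤ ⌊(D : ℝ) ^ lam⌋₊)
    constructor
    · intro d hd
      exact (mem_Icc_of (g.trans (Real.rpow_le_rpow_of_exponent_le hN1 (le_max_left _ _))) hd).2
    · intro d hd _
      exact Or.inl (mem_Icc_of g hd).1⟩
  obtain ⟨η, hη, h⟩ := key
  · refine ⟨η, hη, fun U => ?_⟩
    obtain ⟨B, D₀, hB⟩ := h U
    refine ⟨B, D₀, fun D hD => ?_⟩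
    obtain ⟨Z, hZ1, hZ2, hZ3⟩ := hB D hD
    refine ⟨Z, hZ1, hZ2, fun A hA hc => hZ3 A hA hc _ fun d hd => ?_⟩
    rw [mem_sdiff] at hd
    exact ⟨hd.1, hd.2, trivial⟩

/-- squarefree smooth moduli -/
theorem smooth_mod (lam : ℝ) (hlam : 9 / 5 < lam) :
    ∃ η : ℝ, 0 < η ∧ ∀ U : ℕ, ∃ B D₀ : ℕ, ∀ D : ℕ, D₀ ≤ D → ∃ Z : Finset ℕ, Z ⊆ Ioc D (2 * D) ∧
      (Z.card : ℝ) ≤ D / Real.log D ^ U ∧
      ∀ A : Finset ℕ, A ⊆ Icc 1 ⌊(D : ℝ) ^ lam⌋₊ → (A.card : ℝ) ≤ (D : ℝ) ^ η →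
        ∀ S : Finset ℕ, (∀ d ∈ S, d ∈ Ioc D (2 * D) ∧ Squarefree d ∧
            ∀ p : ℕ, p.Prime → p ∣ d → (p : ℝ) ≤ (D : ℝ) ^ η) →
        ∑ d ∈ S \ Z, ((ex lam U D A d).card : ℝ) ≤ D * Real.log D ^ B := by
  classical
  have hl0 : 0 < lam := by linarith
  have hinv : 1 / lam < 5 / 9 := by
    rw [div_lt_div_iff₀ hl0 (by norm_num)]
    linarith
  have hinv0 : 0 < 1 / lam := by positivity
  obtain ⟨κ, hκ⟩ : ∃ κ : ℝ, κ = (1 / lam + 5 / 9) / 2 := ⟨_, rfl⟩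
  have ha1 : κ < 5 / 9 := by rw [hκ]; linarith
  have ha0 : 0 < κ := by rw [hκ]; linarith
  have ha2 : 1 < lam * κ := by
    have h1 : 1 / lam < κ := by rw [hκ]; linarith
    have h2 : lam * (1 / lam) < lam * κ := mul_lt_mul_of_pos_left h1 hl0
    rwa [mul_one_div, div_self hl0.ne'] at h2
  obtain ⟨D₁, hD₁⟩ := pow_two ha2 ha0 (by linarith) (by linarith)
  obtain ⟨θ, hθ⟩ : ∃ θ : ℝ, θ = max κ (1 / 2) := ⟨_, rfl⟩
  have hθ1 : (1 : ℝ) / 2 ≤ θ := by rw [hθ]; exact le_max_right _ _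
  have hθ2 : θ < 5 / 9 := by rw [hθ]; exact max_lt (by linarith) (by norm_num)
  have hθκ : κ ≤ θ := by rw [hθ]; exact le_max_left _ _
  have hδ : 0 < (5 - 9 * θ) / 4 := by linarith
  have key := core lam θ (by linarith) (by linarith) (PG (1 / 2) θ ((5 - 9 * θ) / 4))
    (hcorr_PG (1 / 2) _ _ (by norm_num) hθ1 hθ2 hδ)
    (fun D d => Squarefree d ∧ ∀ p : ℕ, p.Prime → p ∣ d → (p : ℝ) ≤ (D : ℝ) ^ ((5 - 9 * θ) / 2))
    ⟨D₁ + 2, fun D hD => by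
    have g := hD₁ D (by omega)
    have hDN := D_le (lam := lam) (by linarith) (show 1 ≤ D by omega)
    have hN1 : (1 : ℝ) ≤ ((⌊(D : ℝ) ^ lam⌋₊ : ℕ) : ℝ) := by
      exact_mod_cast (by omega : 1 ≤ ⌊(D : ℝ) ^ lam⌋₊)
    constructor
    · intro d hd
      exact (mem_Icc_of (g.trans (Real.rpow_le_rpow_of_exponent_le hN1 hθκ)) hd).2
    · intro d hd hq
      refine smooth_PG (1 / 2) θ ((5 - 9 * θ) / 4) (by linarith) hθ1 hδ _ d (by omega) hq.1 ?_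
      intro p hp hpd
      refine (hq.2 p hp hpd).trans ?_
      have e1 : 5 - 9 * θ - 2 * ((5 - 9 * θ) / 4) = (5 - 9 * θ) / 2 := by ring
      rw [e1]
      refine Real.rpow_le_rpow (by positivity) ?_ (by linarith)
      exact_mod_cast hDN⟩
  obtain ⟨η, hη, h⟩ := key
  · refine ⟨min η ((5 - 9 * θ) / 2), lt_min hη (by linarith), fun U => ?_⟩
    obtain ⟨B, D₀, hB⟩ := h U
    refine ⟨B, D₀ + 1, fun D hD => ?_⟩
    obtain ⟨Z, hZ1, hZ2, hZ3⟩ := hB D (by omega)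
    have hD1 : (1 : ℝ) ≤ D := by exact_mod_cast (by omega : 1 ≤ D)
    refine ⟨Z, hZ1, hZ2, fun A hA hc S hS => hZ3 A hA
      (hc.trans (Real.rpow_le_rpow_of_exponent_le hD1 (min_le_left _ _))) _ fun d hd => ?_⟩
    rw [mem_sdiff] at hd
    obtain ⟨h1, h2, h3⟩ := hS d hd.1
    exact ⟨h1, hd.2, h2, fun p hp hpd =>
      (h3 p hp hpd).trans (Real.rpow_le_rpow_of_exponent_le hD1 (min_le_right _ _))⟩

end Pool.Agent.K9h59.LP
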